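import Pool.Agent.R320.KL.Nk

/-!
# Connected `k`-level correlations of the zeros in long boxes, for every `k`, under RH

`N T x y` is the number of tuples of distinct zeros whose distances to the last one, in units of the
mean spacing, lie in the box with sides `[x_i, y_i]` (the `N_k(T; B)` of the problem, `k - 1` being the
number of the sides).  For pairwise disjoint sides the connected part (the alternating sum of the
`N_{|S| + 1}` over the subsets `S` of the sides, with the lengths of the other sides as weights, that
is, the mixed central moment of the numbers of neighbours of a zero in the sides) is determined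
asymptotically for every `k`, uniformly in the box, as soon as the box has size `a → ∞`, `a` being as
large as `B log T / log log T`: it is given by the Wick formula of the logarithmically correlated
Gaussian field, as for the sine kernel.
-/

open Filter

namespace Pool.Agent.Results.MP_67227b_nt.ConnectedKLevel

/-- multiplicity of `s` as a zero of the Riemann zeta function (order of vanishing at `s`) -/
noncomputable def zmult (s : ℂ) : ℕ := analyticOrderNatAt riemannZeta s

/-- the number of nontrivial zeros of `ζ` with ordinate in `(0, t]`, with multiplicity -/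
noncomputable def NZ (t : ℝ) : ℕ :=
  ∑ᶠ s ∈ {s : ℂ | riemannZeta s = 0 ∧ 0 < s.re ∧ s.re < 1 ∧ 0 < s.im ∧ s.im ≤ t}, zmult s

/-- for `n ≥ 1`: the `n`-th positive ordinate `γ n` of a nontrivial zero of `ζ`, the ordinates being
listed in nondecreasing order and repeated according to multiplicity -/
noncomputable def γ (n : ℕ) : ℝ := sInf {t : ℝ | n ≤ NZ t}

/-- the number of tuples of distinct indices (one index `j none`, and one index `j (some i)` for each
side `i` of the box) with ordinates `≤ T` such that
`(γ_{j (some i)} - γ_{j none}) log T / 2π ∈ [x_i, y_i]` for all `i` -/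
noncomputable def N {ι : Type} (T : ℝ) (x y : ι → ℝ) : ℕ :=
  {j : Option ι → ℕ | Function.Injective j ∧ (∀ i, 1 ≤ j i ∧ γ (j i) ≤ T) ∧
    ∀ i : ι, (γ (j (some i)) - γ (j none)) * (Real.log T / (2 * Real.pi)) ∈
      Set.Icc (x i) (y i)}.ncard

/-- the connected `(m+1)`-level count in the box with sides `[x_i, y_i]`, `i < m` -/
noncomputable def connected {m : ℕ} (T : ℝ) (x y : Fin m → ℝ) : ℝ :=
  ∑ S : Finset (Fin m), (-1) ^ (Sᶜ).card * (∏ i ∈ Sᶜ, (y i - x i)) *
    (N T (fun i : S => x i) (fun i : S => y i) : ℝ)

/-- `ℓ(u) = log max(1, |u|)` -/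
noncomputable def ℓ (u : ℝ) : ℝ := Real.log (max 1 |u|)

/-- the covariance of the numbers of points of the log-correlated field in two intervals -/
noncomputable def cov (x y x' y' : ℝ) : ℝ :=
  (ℓ (y - x') + ℓ (x - y') - ℓ (y - y') - ℓ (x - x')) / (2 * Real.pi ^ 2)

/-- the sum over all pairings of `Fin m` of the products of the `K i j`, `{i, j}` in the pairing
(`0` if `m` is odd): every pairing comes from `2 ^ q q!` bijections of two copies of `Fin q` onto
`Fin m`, `q = m / 2` -/
noncomputable def pairings (m : ℕ) (K : Fin m → Fin m → ℝ) : ℝ :=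
  (∑ e : Fin (m / 2) ⊕ Fin (m / 2) ≃ Fin m, ∏ l, K (e (Sum.inl l)) (e (Sum.inr l))) /
    (2 ^ (m / 2) * ((m / 2).factorial : ℝ))

lemma rhs_of (hRH : RiemannHypothesis) : SP.RHs := by
  intro s h0 h1 hz
  apply hRH s hz
  · rintro ⟨n, hn⟩
    rw [hn] at h0
    simp at h0
    have : (0 : ℝ) ≤ n := Nat.cast_nonneg n
    linarith
  · intro h
    rw [h] at h1
    simp at h1

/-- **Connected `k`-level correlations in long boxes (RH).**  For all `m`, `B` and `ε > 0` there is
`a₀` such that for all `a ≥ a₀`, all `T ≥ 1` with `a log a ≤ B log T` and all pairwise disjoint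
intervals `[x_i, y_i] ⊆ [-a, a]`, `i < m`, the connected `(m + 1)`-level count divided by
`(T / 2π) log T` differs from the sum over all pairings of the products of the covariances by at
most `ε (log a) ^ (m / 2)`. -/
theorem result (hRH : RiemannHypothesis) (m : ℕ) (B ε : ℝ) (hε : 0 < ε) :
    ∃ a₀ : ℝ, ∀ a : ℝ, a₀ ≤ a → ∀ T : ℝ, 1 ≤ T → a * Real.log a ≤ B * Real.log T →
      ∀ x y : Fin m → ℝ, (∀ i, -a ≤ x i ∧ x i ≤ y i ∧ y i ≤ a) →
      (∀ i j, i ≠ j → Disjoint (Set.Icc (x i) (y i)) (Set.Icc (x j) (y j))) →
      |connected T x y / (T / (2 * Real.pi) * Real.log T) -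
        pairings m (fun i j => cov (x i) (y i) (x j) (y j))| ≤ ε * Real.sqrt (Real.log a) ^ m := by
  obtain ⟨a₀, h⟩ := Pool.Agent.R320.KL.main (rhs_of hRH) m B ε hε
  refine ⟨a₀, fun a ha T hT haT x y hxy hdis => ?_⟩
  have h1 := h a ha T hT haT x y hxy hdis
  have e1 : (fun i j => cov (x i) (y i) (x j) (y j)) =
      fun i j => Pool.Agent.R320.KL.KR (x i) (y i) (x j) (y j) / Real.pi ^ 2 := by
    funext i j
    unfold cov ℓ Pool.Agent.R320.KL.KR Pool.Agent.R320.KL.lp
    rw [div_div]
  rw [e1]
  exact h1

end Pool.Agent.Results.MP_67227b_nt.ConnectedKLevel
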