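import Pool.Agent.R321.FC21

/-!
# k-level correlations of the zeros in almost all windows of boundedly many mean spacings

Assume the Riemann Hypothesis.  For every `k ≥ 2` and every product type test function whose
frequencies satisfy `|ξ₁| + ... + |ξ_k| < 1` the k-level sum of the zeros in the window
`(t, t + 2πΛ/log T]`, which contains about `Λ` zeros, is `Λ (W + O(ε))` with an explicit `W`, for
all `t ∈ [T, 2T]` outside a set of measure at most `ε T`, as soon as the fixed number `Λ` is large.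
-/

open MeasureTheory

namespace Pool.Agent.Results.MP_67227b_nt.MicroscopicKLevel

/-- the nontrivial zeros of zeta with ordinate in `(a, b]` -/
def zeros (a b : ℝ) : Set ℂ :=
  {s : ℂ | riemannZeta s = 0 ∧ 0 < s.re ∧ s.re < 1 ∧ a < s.im ∧ s.im ≤ b}

/-- the multiplicity of a zero -/
noncomputable def m (s : ℂ) : ℝ := (analyticOrderNatAt riemannZeta s : ℝ)

/-- the cosine transform over `(-μ, μ)` -/
noncomputable def tr (μ : ℝ) (ψ : ℝ → ℝ) (x : ℝ) : ℝ :=
  ∫ α in (-μ)..μ, ψ α * Real.cos (2 * Real.pi * α * x)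

/-- the functions on the frequency side: even, Lipschitz, zero outside `(-μ, μ)`, with a cosine
transform that is `O(x⁻²)` -/
def Test (μ : ℝ) (ψ : ℝ → ℝ) : Prop :=
  (∃ K : ℝ, ∀ x y, |ψ x - ψ y| ≤ K * |x - y|) ∧ (∀ x, ψ (-x) = ψ x) ∧
    (∀ x, μ ≤ |x| → ψ x = 0) ∧ ∃ C : ℝ, ∀ x, |tr μ ψ x| * x ^ 2 ≤ C

/-- the translation invariant test function `Φ(x) = ∫ ∏ g_j(x_j - u) du` -/
noncomputable def Φ {k : ℕ} (g : Fin k → ℝ → ℝ) (x : Fin k → ℝ) : ℝ := ∫ u, ∏ j, g j (x j - u)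

/-- the k-level sum of `f` over all k-tuples of ordinates of zeros in `(a, b]`, counted with
multiplicity -/
noncomputable def level {k : ℕ} (a b : ℝ) (f : (Fin k → ℝ) → ℝ) : ℝ :=
  ∑ᶠ s ∈ {s : Fin k → ℂ | ∀ j, s j ∈ zeros a b}, (∏ j, m (s j)) * f (fun j => (s j).im)

/-- the Gaussian (Wick) mean: `W [] = 1` and
`W (j :: l) = c_j W l + ∑_i κ(j, l_i) W (l without l_i)` -/
noncomputable def W {k : ℕ} (c : Fin k → ℝ) (κ : Fin k → Fin k → ℝ) : List (Fin k) → ℝ
  | [] => 1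
  | j :: l => c j * W c κ l + ∑ i : Fin l.length, κ j (l.get i) * W c κ (l.eraseIdx i)
termination_by l => l.length
decreasing_by
  · simp
  · have := List.length_eraseIdx_le l i
    simp
    omega

/-- the covariance `∫ |α| ψ_i(α) ψ_j(α) dα` -/
noncomputable def cov {k : ℕ} (ψ : Fin k → ℝ → ℝ) (i j : Fin k) : ℝ :=
  ∫ α in (-1 : ℝ)..1, |α| * ψ i α * ψ j α

lemma zeros_eq (T₁ T₂ : ℝ) : zeros T₁ T₂ = H370.zset riemannZeta T₁ T₂ := by
  ext s
  simp only [zeros, H370.zset, Set.mem_ofPred_eq]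
  tauto

/-- the sets of zeros that are summed over are finite -/
theorem zeros_finite (T₁ T₂ : ℝ) (h : 0 < T₁) : (zeros T₁ T₂).Finite := by
  rw [zeros_eq]
  exact H370.zset_finite' H370.good_zeta T₁ T₂ h

lemma W_eq {k : ℕ} (c : Fin k → ℝ) (κ : Fin k → Fin k → ℝ) (l : List (Fin k)) :
    W c κ l = Pool.Agent.R321.FA.wk c κ l := by
  induction hn : l.length using Nat.strong_induction_on generalizing l with
  | _ n ih =>
    rcases l with _ | ⟨j, l⟩
    · rw [W, Pool.Agent.R321.FA.wk_nil]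
    · have hlen : l.length < n := by rw [← hn]; simp
      rw [W, Pool.Agent.R321.FA.wk_cons, ih _ hlen l rfl]
      congr 1
      refine Finset.sum_congr rfl fun i _ => ?_
      rw [ih _ (lt_of_le_of_lt (List.length_eraseIdx_le l i) hlen) (l.eraseIdx i) rfl]

/-- **Main theorem.** -/
theorem result (hRH : RiemannHypothesis) :
    ∀ (k : ℕ) (μ : Fin k → ℝ) (ψ : Fin k → ℝ → ℝ), 2 ≤ k → (∀ j, 0 < μ j) → ∑ j, μ j < 1 →
      (∀ j, Test (μ j) (ψ j)) → ∀ ε : ℝ, 0 < ε →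
      ∃ Λ₀ : ℝ, ∀ Λ : ℝ, Λ₀ ≤ Λ → ∃ T₀ : ℝ, ∀ T : ℝ, T₀ ≤ T →
      volume {t : ℝ | T ≤ t ∧ t ≤ 2 * T ∧
        ε < |Λ⁻¹ * level t (t + 2 * Real.pi * Λ / Real.log T)
            (fun x => Φ (fun j => tr (μ j) (ψ j)) (fun j => x j * (Real.log T / (2 * Real.pi)))) -
          W (fun j => ψ j 0) (cov ψ) (List.finRange k)|} ≤ ENNReal.ofReal (ε * T) := by
  intro k μ ψ hk hμ hsum hψ ε hε
  have h0 : SP.RHs := fun s h1 h2 h3 => by
    apply hRH s h3
    · rintro ⟨n, hn⟩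
      rw [hn] at h1
      norm_num at h1
      have : (0 : ℝ) ≤ n := Nat.cast_nonneg n
      linarith
    · rintro rfl
      norm_num at h2
  have hev : ∀ j α, H370.A2.evp (ψ j) α = ψ j α := by
    intro j α
    unfold H370.A2.evp
    rw [(hψ j).2.1 α]
    ring
  have hTF : ∀ j, Pool.Agent.R321.FA.TF (ψ j) (μ j) := fun j =>
    ⟨(hψ j).1, (hψ j).2.2.1, (hψ j).2.2.2⟩
  have hcont : ∀ j, Continuous (ψ j) := fun j => by
    obtain ⟨K, hK⟩ := (hψ j).1
    exact Pool.Agent.R321.FA.lip_cont hK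
  have hW : Pool.Agent.R321.FA.WW ψ = W (fun j => ψ j 0) (cov ψ) (List.finRange k) := by
    rw [W_eq]
    unfold Pool.Agent.R321.FA.WW
    congr 1
    funext i j
    unfold cov
    simp_rw [hev]
    rw [H370.A2.int_sym (fun α => |α| * ψ i α * ψ j α)
      ((continuous_abs.mul (hcont i)).mul (hcont j)) 1, ← intervalIntegral.integral_const_mul]
    refine intervalIntegral.integral_congr fun α hα => ?_
    rw [Set.uIcc_of_le zero_le_one] at hα
    show 2 * (α * ψ i α * ψ j α) = |α| * ψ i α * ψ j α + |-α| * ψ i (-α) * ψ j (-α)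
    rw [abs_neg, (hψ i).2.1, (hψ j).2.1, abs_of_nonneg hα.1]
    ring
  obtain ⟨Λ0, hΛ0, h1⟩ := Pool.Agent.R321.FA.klevel3 h0 hk hTF hμ hsum ε hε
  refine ⟨Λ0, fun Λ hΛ => ?_⟩
  obtain ⟨T0, hT0, h2⟩ := h1 Λ hΛ
  refine ⟨T0, fun T hT => (measure_mono ?_).trans (h2 T hT)⟩
  rintro t ⟨ht1, ht2, ht3⟩
  refine ⟨ht1, ht2, ?_⟩
  have htp : 0 < t := by linarith
  have e1 : level t (t + 2 * Real.pi * Λ / Real.log T)
      (fun x => Φ (fun j => tr (μ j) (ψ j)) (fun j => x j * (Real.log T / (2 * Real.pi)))) =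
      ∑ s ∈ Fintype.piFinset (fun _ : Fin k =>
        Pool.Agent.R321.FA.ZN t (t + 2 * Real.pi * Λ / Real.log T)),
        (∏ j, (SP.mu (s j) : ℝ)) * Pool.Agent.R321.FA.Phi (fun j => H370.A2.RR (ψ j) (μ j))
          (fun j => (s j).im * (Real.log T / (2 * Real.pi))) := by
    unfold level
    have hset : {s : Fin k → ℂ | ∀ j, s j ∈ zeros t (t + 2 * Real.pi * Λ / Real.log T)} =
        ↑(Fintype.piFinset (fun _ : Fin k =>
          Pool.Agent.R321.FA.ZN t (t + 2 * Real.pi * Λ / Real.log T))) := by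
      ext s
      rw [Finset.mem_coe, Fintype.mem_piFinset, Set.mem_ofPred_eq]
      refine forall_congr' fun j => ?_
      rw [Pool.Agent.R321.FA.ZN_mem htp, zeros_eq]
    rw [hset, finsum_mem_coe_finset]
    rfl
  rw [← e1, hW, one_div]
  exact ht3

end Pool.Agent.Results.MP_67227b_nt.MicroscopicKLevel
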