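import Pool.Agent.R321.QC2

/-!
# The number variance of the zeros in almost every window of `ε L` mean spacings, unconditionally

No hypothesis is assumed.  Let `N(t)` be the number of ordinates in `(0, t]` and let `X(y)` be the
number of ordinates in `(y, y + 2πL / log T]`, whose mean value is `L`.  The mean square of
`X(y) - L` over all `y ∈ [T, 2T]` is asymptotic to `(log L) / π²` (Selberg, Fujii), the value given
by the sine kernel for large `L`.  Here the mean square is taken only over a window
`[t, t + W]`, where `W` is at least `η L` mean spacings, `η > 0` fixed, so that `W` may be much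
shorter than the interval in which the ordinates are counted: for almost all `t` it is still
asymptotic to `(log L) / π²`, and the mean over `t` of the absolute value of the
difference is `o(log L)`.  The result is uniform in `L ≥ L₀` with `L log L ≤ B log T`; in
particular it holds for `L`, `W log T` fixed, as `T → ∞`.

Idea of the proof.  The normalised deviation is given, up to an error of bounded mean square, by
a short prime polynomial `G`.  For a test function `f` with `0 ≤ f(x) ≤ x²` with integrable Fourier
transform the mean over the window of `f` is close to its Gaussian mean for almost all `t`, by the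
asymptotic independence of `exp (i ξ G)` at distances between `η L / K` and `η L` mean spacings; the
remaining part `x² - f(x) ≥ 0` is small in mean by the asymptotic formula for the global variance.
-/

namespace Pool.Agent.Results.MP_67227b_nt.NumberVarianceMicroscopic

open MeasureTheory

/-- multiplicity of `s` as a zero of the Riemann zeta function (order of vanishing at `s`) -/
noncomputable def zmult (s : ℂ) : ℕ := analyticOrderNatAt riemannZeta s

/-- the number of nontrivial zeros of `ζ` with ordinate in `(0, t]`, with multiplicity -/
noncomputable def N (t : ℝ) : ℕ :=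
  ∑ᶠ s ∈ {s : ℂ | riemannZeta s = 0 ∧ 0 < s.re ∧ s.re < 1 ∧ 0 < s.im ∧ s.im ≤ t}, zmult s

/-- the number variance in the window `[t, t + W]`: the mean square, over `y` in the window, of the
deviation from `L` of the number of ordinates in `(y, y + 2πL / log T]` -/
noncomputable def V (T L W t : ℝ) : ℝ :=
  1 / W * ∫ y in t..(t + W), ((N (y + 2 * Real.pi * L / Real.log T) : ℝ) - N y - L) ^ 2

lemma V_cont (T L W : ℝ) : Continuous (V T L W) :=
  continuous_const.mul (Pool.Agent.R321.QA.win_cont (Pool.Agent.R321.QA.dev_ii T L) W)

/-- **The number variance in almost all microscopic windows (no hypothesis).** -/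
theorem result (B ε η : ℝ) (hε : 0 < ε) (hη : 0 < η) :
    ∃ L₀ : ℝ, ∀ L T W : ℝ, L₀ ≤ L → 1 < T → L * Real.log L ≤ B * Real.log T →
    η * (2 * Real.pi * L / Real.log T) ≤ W → W ≤ T →
    (1 / T * ∫ t in T..(2 * T - W), |V T L W t - Real.log L / Real.pi ^ 2|) ≤ ε * Real.log L ∧
    volume {t : ℝ | T ≤ t ∧ t ≤ 2 * T - W ∧
      ε * Real.log L < |V T L W t - Real.log L / Real.pi ^ 2|} ≤ ENNReal.ofReal (ε * T) := by
  obtain ⟨R, hR, h⟩ := Pool.Agent.R321.QA.number_variance (max B 1) (le_max_right _ _)
    (show 0 < min ε (ε ^ 2) by positivity) hη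
  refine ⟨R, fun L T W hL hT hB hW hWT => ?_⟩
  have hT0 : 0 < T := by linarith
  have hlT : 0 < Real.log T := Real.log_pos hT
  have hL0 : 0 < L := by linarith
  have hlL : 0 < Real.log L := Real.log_pos (by linarith)
  have h1 := h L T W hL hT (hB.trans (mul_le_mul_of_nonneg_right (le_max_left _ _) hlT.le)) hW hWT
  have h2 : ∫ t in T..(2 * T - W), |V T L W t - Real.log L / Real.pi ^ 2| ≤
      min ε (ε ^ 2) * (T * Real.log L) := h1
  have hc : Continuous fun t => |V T L W t - Real.log L / Real.pi ^ 2| :=
    ((V_cont T L W).sub continuous_const).abs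
  refine ⟨?_, ?_⟩
  · calc 1 / T * ∫ t in T..(2 * T - W), |V T L W t - Real.log L / Real.pi ^ 2| ≤
        1 / T * (min ε (ε ^ 2) * (T * Real.log L)) := mul_le_mul_of_nonneg_left h2 (by positivity)
      _ = min ε (ε ^ 2) * Real.log L := by field_simp
      _ ≤ ε * Real.log L := mul_le_mul_of_nonneg_right (min_le_left _ _) hlL.le
  · set E : Set ℝ := {t : ℝ | ε * Real.log L ≤ |V T L W t - Real.log L / Real.pi ^ 2|} with hE
    have hEm : MeasurableSet E := measurableSet_le measurable_const hc.measurable
    have hsub : {t : ℝ | T ≤ t ∧ t ≤ 2 * T - W ∧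
        ε * Real.log L < |V T L W t - Real.log L / Real.pi ^ 2|} ⊆ E ∩ Set.Icc T (2 * T - W) :=
      fun t ht => ⟨ht.2.2.le, ht.1, ht.2.1⟩
    have hfin : volume (E ∩ Set.Icc T (2 * T - W)) ≠ ⊤ :=
      ne_top_of_le_ne_top (by rw [Real.volume_Icc]; exact ENNReal.ofReal_ne_top)
        (measure_mono Set.inter_subset_right)
    refine (measure_mono hsub).trans ?_
    rw [← ENNReal.ofReal_toReal hfin]
    apply ENNReal.ofReal_le_ofReal
    have h5 := mul_meas_ge_le_integral_of_nonneg (μ := volume.restrict (Set.Icc T (2 * T - W)))
      (f := fun t => |V T L W t - Real.log L / Real.pi ^ 2|)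
      (Filter.Eventually.of_forall fun t => abs_nonneg _)
      (hc.integrableOn_Icc) (ε * Real.log L)
    rw [measureReal_restrict_apply hEm, integral_Icc_eq_integral_Ioc,
      ← intervalIntegral.integral_of_le (by linarith)] at h5
    have h6 : ε * Real.log L * (volume (E ∩ Set.Icc T (2 * T - W))).toReal ≤
        ε * Real.log L * (ε * T) := by
      refine (h5.trans h2).trans ?_
      calc min ε (ε ^ 2) * (T * Real.log L) ≤ ε ^ 2 * (T * Real.log L) :=
            mul_le_mul_of_nonneg_right (min_le_right _ _) (by positivity)
        _ = _ := by ring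
    exact le_of_mul_le_mul_left h6 (by positivity)

end Pool.Agent.Results.MP_67227b_nt.NumberVarianceMicroscopic
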