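import Pool.Agent.R304.UP.Main
import Pool.Agent.Results.MP_103a5c_nt.BohrSetPairs

/-!
# Pair correlation of the zeros and the values of zeta in the strip

Let `Φ` be a bounded functional of functions on a compact subset `K` of the strip
`1/2 < Re z < 1`, uniformly continuous for the supremum over `K`; for instance a continuous
approximation of the indicator function of a set of universality. On the Riemann hypothesis the
pair correlation of the zeros, tested with a function of bandwidth less than one, is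
asymptotically independent of the value of `Φ(ζ(· + iγ))`.
-/

open Filter Topology Complex MeasureTheory

namespace Pool.Agent.Results.MP_67227b_nt.PairCorrelationAndValuesOfZeta

/-- the nontrivial zeros of zeta with ordinate in `(T, 2T]` -/
def zeros (T : ℝ) : Set ℂ :=
  {s : ℂ | riemannZeta s = 0 ∧ 0 < s.re ∧ s.re < 1 ∧ T < s.im ∧ s.im ≤ 2 * T}

/-- the multiplicity of a zero -/
noncomputable def mult (s : ℂ) : ℕ := analyticOrderNatAt riemannZeta s

/-- the number of these zeros, with multiplicity -/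
noncomputable def N (T : ℝ) : ℕ := ∑ᶠ s ∈ zeros T, mult s

/-- the vertical shift of zeta -/
noncomputable def shift (t : ℝ) : ℂ → ℂ := fun z => riemannZeta (z + t * I)

/-- `Φ` is bounded by `B` and uniformly continuous for the supremum over `K` -/
structure Functional (K : Set ℂ) (B : ℝ) (Φ : (ℂ → ℂ) → ℝ) : Prop where
  bdd : ∀ g, |Φ g| ≤ B
  unif : ∀ ε : ℝ, 0 < ε → ∃ δ : ℝ, 0 < δ ∧ ∀ g h : ℂ → ℂ, (∀ z ∈ K, ‖g z - h z‖ ≤ δ) →
    |Φ g - Φ h| ≤ ε

/-- `m` is the mean value of `Φ(ζ(· + it))` over the real `t` -/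
def Mean (Φ : (ℂ → ℂ) → ℝ) (m : ℝ) : Prop :=
  Tendsto (fun X : ℝ => (∫ t in (0 : ℝ)..X, Φ (shift t)) / X) atTop (𝓝 m)

/-- the test function `r(x) = ∫ R(α) cos(2π x α) dα`, for `R` supported in `[-1, 1]` -/
noncomputable def r (R : ℝ → ℝ) (x : ℝ) : ℝ :=
  ∫ α in (-1 : ℝ)..1, R α * Real.cos (2 * Real.pi * x * α)

/-- `R` is continuous, even, vanishes for `|α| ≥ κ`, and `r(x) = O(1/(1+x²))` -/
structure TestFn (R : ℝ → ℝ) (κ : ℝ) : Prop where
  cont : Continuous R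
  even : ∀ α, R (-α) = R α
  supp : ∀ α, κ ≤ |α| → R α = 0
  decay : ∃ K : ℝ, ∀ x : ℝ, |r R x| ≤ K / (1 + x ^ 2)

/-- the sum of `r((γ - γ') log T / 2π) Φ(ζ(· + iγ))` over the ordered pairs of zeros with
ordinates in `(T, 2T]`, with multiplicity, `γ = γ'` included -/
noncomputable def pairSum (R : ℝ → ℝ) (Φ : (ℂ → ℂ) → ℝ) (T : ℝ) : ℝ :=
  ∑ᶠ s ∈ zeros T, ∑ᶠ s' ∈ zeros T, (mult s : ℝ) * (mult s' : ℝ) *
    (r R ((s.im - s'.im) * Real.log T / (2 * Real.pi)) * Φ (shift s.im))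

/-- the constant of Montgomery's theorem, `R(0) + ∫ |α| R(α) dα` -/
noncomputable def mont (R : ℝ → ℝ) : ℝ := R 0 + 2 * ∫ α in (0 : ℝ)..1, α * R α

theorem result (RH : RiemannHypothesis) (K : Set ℂ) (hK : IsCompact K)
    (hKs : ∀ z ∈ K, 1 / 2 < z.re ∧ z.re < 1) (Φ : (ℂ → ℂ) → ℝ) (B : ℝ)
    (hΦ : Functional K B Φ) : ∃ m : ℝ, Mean Φ m ∧
      ∀ (R : ℝ → ℝ) (κ : ℝ), 0 < κ → κ < 1 → TestFn R κ → ∀ ε : ℝ, 0 < ε →
        ∃ T₀ : ℝ, ∀ T : ℝ, T₀ ≤ T → |pairSum R Φ T - m * mont R * N T| ≤ ε * N T := by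
  have hΦ' : R304.UP.Fnl K Φ B := ⟨hΦ.bdd, hΦ.unif⟩
  obtain ⟨m, hm⟩ := R304.UP.mean_exists hK hKs hΦ'
  refine ⟨m, hm, fun R κ hκ0 hκ1 hR ε hε => ?_⟩
  have hR' : MP_103a5c_nt.BohrSetPairs.TestFn R κ := ⟨hR.cont, hR.even, hR.supp, hR.decay⟩
  obtain ⟨T0, h⟩ := R304.UP.pairs_main RH hR' hκ0 hκ1 hK hKs hΦ' hm hε
  refine ⟨T0, fun T hT => ?_⟩
  have e : (N T : ℝ) = (H370.NN riemannZeta T (2 * T) : ℝ) := by
    exact_mod_cast MP_103a5c_nt.BohrSetPairs.N_eq T (2 * T)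
  rw [e]
  exact h T hT

end Pool.Agent.Results.MP_67227b_nt.PairCorrelationAndValuesOfZeta
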